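import Pool.Agent.P.MP_1206ce_ag.Alg.CDefs
import Pool.Agent.P.MP_1206ce_ag.AC.Sub
import Pool.Agent.P.MP_1206ce_ag.AC.Sup
import Pool.Agent.P.MP_1206ce_ag.AC.Ker
import Pool.Agent.P.MP_1206ce_ag.AC.Grade

/-! The algebraic theorem: `B = H / I'`. -/

noncomputable section

namespace Pool.Agent.HK

theorem Qv.algMain (Q : Qv) (θ : Fin Q.nI → ℤ) (hθ : Q.Generic θ) (S : Subalgebra ℂ Q.AA)
    (hS : Q.IsCoul S) (Sb : Subalgebra ℂ Q.bdef.AA) (hSb : Q.bdef.IsCoul Sb) :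
    ∃ ι : Q.Pol → S, (∀ h ∈ Rinv Q.lab, (ι h).1 = Q.iota h) ∧
      (∀ z : S, ∃ h ∈ Rinv Q.lab, z - ι h ∈ Q.IA θ S) ∧
      (∀ h ∈ Rinv Q.lab, ι h ∈ Q.IA θ S ↔ h ∈ Q.Ipr) ∧
      ∀ (z : S) (j : ℤ), (∀ l, Q.FDeg j (z.1.coeff l)) →
        ∃ h ∈ Rinv Q.lab, (h = 0 ∨ ∃ d : ℕ, j = 2 * (d : ℤ) ∧ h.IsHomogeneous d) ∧
          z - ι h ∈ Q.IA θ S := by
  classical
  have hTb := AC.TRA_of_coul hSb
  have hmem : ∀ h ∈ Rinv Q.lab, Q.iota h ∈ S := fun h hh => AC.Hs_le_S hS (AC.iota_mem_Hs hh)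
  let ι : Q.Pol → S := fun h => if hh : h ∈ Rinv Q.lab then ⟨Q.iota h, hmem h hh⟩ else 0
  have hι : ∀ h ∈ Rinv Q.lab, (ι h).1 = Q.iota h := fun h hh => by
    simp only [ι, dif_pos hh]
  have hsub : ∀ (z : S), ∀ h ∈ Rinv Q.lab, z.1 - Q.iota h ∈ AC.II Q → z - ι h ∈ Q.IA θ S :=
    fun z h hh hz => by
      rw [AC.IA_iff hθ hS]
      have : (z - ι h).1 = z.1 - Q.iota h := by rw [← hι h hh]; rfl
      rw [this]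
      exact hz
  refine ⟨ι, hι, fun z => ?_, fun h hh => ?_, fun z j hz => ?_⟩
  · obtain ⟨h, hh, hz⟩ := AC.exists_iota_of_AG (AC.S_le_AG hS z.2)
    exact ⟨h, hh, hsub z h hh hz⟩
  · rw [AC.IA_iff hθ hS, hι h hh, AC.II_iff_spec hTb hh]
    constructor
    · rintro ⟨h', hh', hI, he⟩
      exact ⟨h', AC.I0_of_mem_II hTb hh' hI, he⟩
    · rintro ⟨h', hh', he⟩
      exact ⟨h', hh'.1, AC.mem_II_of_I0 hTb AC.bdef_UF hh', he⟩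
  · obtain ⟨h, hh, hd, hz'⟩ := AC.grade (AC.S_le_AG hS z.2) j hz
    exact ⟨h, hh, hd, hsub z h hh hz'⟩

theorem Qv.algWt (Q : Qv) (θ : Fin Q.nI → ℤ) (hθ : Q.Generic θ) (S : Subalgebra ℂ Q.AA)
    (hS : Q.IsCoul S) (θ' : Fin Q.nI → ℤ) (k : ℤ) (hk : k ≠ 0) (z : S) (hz : Q.WtA θ' k z.1) :
    z ∈ Q.IA θ S :=
  (AC.IA_iff hθ hS z).2 (AC.mem_II_of_wt (AC.TRA_of_coul hS) hk (AC.S_le_AG hS z.2) hz)

end Pool.Agent.HK
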