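import Pool.Agent.P.MP_1206ce_ag.Top.Alg
import Pool.Agent.P.MP_1206ce_ag.CB.RepB

/-! The convolution algebra is spanned by homogeneous classes. -/

noncomputable section

open MvPolynomial

namespace Pool.Agent.HK

namespace Qv

variable {Q : Qv}

theorem Grad_zero (j : ℤ) : Q.FDeg j 0 := Or.inl rfl

theorem Grad_add {j : ℤ} {x y : Q.Frac} (hx : Q.FDeg j x) (hy : Q.FDeg j y) :
    Q.FDeg j (x + y) := by
  rcases hx with rfl | ⟨a, b, da, db, ha, hb, h0, h1, h2⟩
  · rwa [zero_add]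
  rcases hy with rfl | ⟨a', b', da', db', ha', hb', h0', h1', h2'⟩
  · rw [add_zero]
    exact Or.inr ⟨a, b, da, db, ha, hb, h0, h1, h2⟩
  refine Or.inr ⟨a * b' + a' * b, b * b', da + db', db + db', (ha.mul hb').add ?_, hb.mul hb',
    mul_ne_zero h0 h0', ?_, ?_⟩
  · have e : da + db' = da' + db := by omega
    rw [e]
    exact ha'.mul hb
  · rw [map_add, map_mul, map_mul, map_mul, ← h1, ← h1']
    ring
  · push_cast
    omega

theorem Grad_sum {j : ℤ} {J : Type} (s : Finset J) {f : J → Q.Frac}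
    (h : ∀ i ∈ s, Q.FDeg j (f i)) : Q.FDeg j (∑ i ∈ s, f i) :=
  Finset.sum_induction f (Q.FDeg j) (fun _ _ => Grad_add) (Grad_zero j) h

theorem Grad_mul {j j' : ℤ} {x y : Q.Frac} (hx : Q.FDeg j x) (hy : Q.FDeg j' y) :
    Q.FDeg (j + j') (x * y) := by
  rcases hx with rfl | ⟨a, b, da, db, ha, hb, h0, h1, h2⟩
  · exact Or.inl (zero_mul _)
  rcases hy with rfl | ⟨a', b', da', db', ha', hb', h0', h1', h2'⟩
  · exact Or.inl (mul_zero _)
  refine Or.inr ⟨a * a', b * b', da + da', db + db', ha.mul ha', hb.mul hb',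
    mul_ne_zero h0 h0', ?_, ?_⟩
  · rw [map_mul, map_mul, ← h1, ← h1']
    ring
  · push_cast
    omega

theorem Grad_div {a b : Q.Pol} {da db : ℕ} (ha : a.IsHomogeneous da) (hb : b.IsHomogeneous db) :
    Q.FDeg (2 * ((da : ℤ) - db)) (algebraMap Q.Pol Q.Frac a / algebraMap Q.Pol Q.Frac b) := by
  by_cases h0 : b = 0
  · left
    rw [h0, map_zero, div_zero]
  · exact Or.inr ⟨a, b, da, db, ha, hb, h0,
      div_mul_cancel₀ _ ((map_ne_zero_iff _ CBDeg_inj).2 h0), rfl⟩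

theorem Grad_poly {j : ℤ} {r : Q.Pol} (h : Q.FDeg j (algebraMap Q.Pol Q.Frac r)) :
    r = 0 ∨ ∃ e : ℕ, j = 2 * (e : ℤ) ∧ r.IsHomogeneous e := by
  rcases h with h | ⟨a, b, da, db, ha, hb, h0, h1, h2⟩
  · exact Or.inl ((map_eq_zero_iff _ CBDeg_inj).1 h)
  rw [← map_mul] at h1
  have h3 : r * b = a := CBDeg_inj h1
  have h4 : ∀ d, d + db ≠ da → homogeneousComponent d r = 0 := by
    intro d hd
    have h5 : homogeneousComponent (d + db) (r * b) = homogeneousComponent d r * b := by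
      conv_lhs => rw [← sum_homogeneousComponent r, Finset.sum_mul, map_sum]
      rw [Finset.sum_eq_single d]
      · rw [homogeneousComponent_of_mem ((homogeneousComponent_isHomogeneous d r).mul hb),
          if_pos rfl]
      · intro i _ hi
        rw [homogeneousComponent_of_mem ((homogeneousComponent_isHomogeneous i r).mul hb),
          if_neg (by omega)]
      · intro hi
        rw [homogeneousComponent_eq_zero d r (by
          rw [Finset.mem_range] at hi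
          omega), zero_mul, map_zero]
    rw [h3, homogeneousComponent_of_mem ha, if_neg hd] at h5
    exact (mul_eq_zero.1 h5.symm).resolve_right h0
  by_cases hle : db ≤ da
  · refine Or.inr ⟨da - db, by omega, ?_⟩
    rw [← sum_homogeneousComponent r]
    refine IsHomogeneous.sum _ _ _ fun d _ => ?_
    by_cases e : d = da - db
    · rw [e]
      exact homogeneousComponent_isHomogeneous _ r
    · rw [h4 d (by omega)]
      exact isHomogeneous_zero _ _ _
  · left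
    rw [← sum_homogeneousComponent r]
    exact Finset.sum_eq_zero fun d _ => h4 d (by omega)

theorem hasDeg_of_fDeg {ζ : ℂ} {c : Q.Fun} {z : Q.AA} (hf : Q.FamV c) (hr : Q.Rep ζ c z) {j : ℤ}
    (hj : ∀ l, Q.FDeg j (z.coeff l)) : Q.HasDeg j c := by
  refine (Ev.and hf hr).imp fun m d hd H k a ha hk => ?_
  have h1 : Q.FDeg (k + j - 2 * (d : ℤ) * Q.dimN)
      (algebraMap Q.Pol Q.Frac (val Q.lab (c m d a))) := by
    rw [H.2.2 a ha, pair]
    refine Grad_sum _ fun l hl => ?_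
    rcases ev_hom (Q.invX_RR m d) (Q.UL_subset_RR hl d) ha hk ζ with h3 | ⟨e, h3, h4⟩
    · left
      rw [evF, h3, map_zero, mul_zero]
    · obtain ⟨e₀, h5, h6⟩ := Q.phi_hom hl hd
      have h7 := Grad_mul (hj l) (Grad_div h4 h5)
      have h8 : (e₀ : ℤ) + ((Q.PU l d).card : ℤ) = d * Q.dimN := by exact_mod_cast h6
      convert h7 using 1
      · linarith
      · rw [cf, evF]
        ring
  rcases Grad_poly h1 with h2 | ⟨e, h2, h3⟩
  · exact ⟨0, fun _ _ _ => rfl,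
      (famEq_iff_val (H.1 a ha) (IsFam.zero _ _)).2 (h2.trans (val_zero _).symm)⟩
  · refine ⟨_, ?_, val_spec (H.1 a ha)⟩
    rw [h2]
    exact homog_iff.2 fun n => chC_homC _ h3 n

/-- Elements with homogeneous coefficients. -/
def Grad_H (Q : Qv) : Set Q.AA := {z | ∃ j, ∀ l, Q.FDeg j (z.coeff l)}

theorem Grad_H_mul {x y : Q.AA} (hx : x ∈ Q.Grad_H) (hy : y ∈ Q.Grad_H) : x * y ∈ Q.Grad_H := by
  classical
  obtain ⟨j, hx⟩ := hx
  obtain ⟨j', hy⟩ := hy
  refine ⟨j + j', fun l => ?_⟩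
  rw [AddMonoidAlgebra.coeff_mul]
  refine Grad_sum _ fun a _ => Grad_sum _ fun b _ => ?_
  dsimp only
  split_ifs
  · exact Grad_mul (hx a) (hy b)
  · exact Grad_zero _

theorem Grad_H_iota {h : Q.Pol} {d : ℕ} (hd : h.IsHomogeneous d) : Q.iota h ∈ Q.Grad_H := by
  refine ⟨2 * ((d : ℤ) - (0 : ℕ)), fun l => ?_⟩
  by_cases hl : l = 0
  · rw [hl, AC.iota_coeff_zero, ← div_one (AC.al Q h), ← map_one (AC.al Q)]
    exact Grad_div hd (isHomogeneous_one _ _)
  · rw [AC.iota_coeff_ne h hl]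
    exact Grad_zero _

theorem Grad_H_M0 (F : AC.Pc Q) {f : Q.Pol} {d : ℕ} (hd : f.IsHomogeneous d) :
    AC.M0 Q F f ∈ Q.Grad_H := by
  classical
  obtain ⟨a, ha⟩ := AC.phi_hom (AC.mu Q F)
  obtain ⟨b, hb⟩ := AC.eul_hom (AC.mu Q F)
  refine ⟨2 * (((d + a : ℕ) : ℤ) - b), fun l => ?_⟩
  rw [AC.M0, AddMonoidAlgebra.coeff_sum, Finsupp.finsetSum_apply]
  refine Grad_sum _ fun w _ => ?_
  rw [AddMonoidAlgebra.coeff_single, Finsupp.single_apply]
  split_ifs
  · rw [map_div₀, AC.wF_al, AC.wF_al]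
    exact Grad_div (hd.mul ha).rename_isHomogeneous hb.rename_isHomogeneous
  · exact Grad_zero _

theorem Grad_PL (L : List (AC.Pc Q)) :
    AC.PL Q L ≤ Submodule.span ℂ {y | y ∈ AC.PL Q L ∧ y ∈ Q.Grad_H} := by
  induction L with
  | nil =>
    rw [AC.PL_nil]
    intro z hz
    obtain ⟨h, hh, rfl⟩ := AC.mem_Hs.1 hz
    rw [← sum_homogeneousComponent h, map_sum]
    exact Submodule.sum_mem _ fun d _ => Submodule.subset_span
      ⟨AC.iota_mem_Hs (homogeneousComponent_mem_Rinv hh d),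
        Grad_H_iota (homogeneousComponent_isHomogeneous d h)⟩
  | cons F L ih =>
    have h1 : AC.Mo Q F ≤ Submodule.span ℂ {y | y ∈ AC.Mo Q F ∧ y ∈ Q.Grad_H} := by
      intro z hz
      obtain ⟨f, -, rfl⟩ := AC.mem_Mo.1 hz
      rw [← sum_homogeneousComponent f, AC.MF_sum]
      exact Submodule.sum_mem _ fun d _ => Submodule.smul_mem _ _ (Submodule.subset_span
        ⟨AC.M0_mem_Mo F _, Grad_H_M0 F (homogeneousComponent_isHomogeneous d f)⟩)
    rw [AC.PL_cons]
    refine (mul_le_mul' h1 ih).trans ?_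
    rw [Submodule.span_mul_span]
    refine Submodule.span_mono ?_
    rintro _ ⟨x, hx, y, hy, rfl⟩
    exact ⟨Submodule.mul_mem_mul hx.1 hy.1, Grad_H_mul hx.2 hy.2⟩

theorem span_hom {S : Subalgebra ℂ Q.AA} (hS : Q.IsCoul S) :
    Submodule.span ℂ {y : S | (∃ j, ∀ l, Q.FDeg j (y.1.coeff l)) ∧
      ∀ θ, ∃ k, Q.WtA θ k y.1} = ⊤ := by
  refine Submodule.eq_top_iff'.2 fun z => ?_
  have key : AC.AG Q ≤ (Submodule.span ℂ {y : S | (∃ j, ∀ l, Q.FDeg j (y.1.coeff l)) ∧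
      ∀ θ, ∃ k, Q.WtA θ k y.1}).map S.val.toLinearMap := by
    refine iSup_le fun L => (Grad_PL L).trans (Submodule.span_le.2 ?_)
    rintro y ⟨h1, h2⟩
    exact ⟨⟨y, AC.AG_le_S hS (AC.PL_le_AG L h1)⟩, Submodule.subset_span
      ⟨h2, fun θ => ⟨_, fun m hm => AC.Tri_wt_SuppL θ (AC.supp_PL h1 hm)⟩⟩, rfl⟩
  obtain ⟨x, hx, he⟩ := key (AC.S_le_AG hS z.2)
  have h1 : x = z := Subtype.ext he
  exact h1 ▸ hx

end Qv

end Pool.Agent.HK
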