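import Pool.Agent.P.MP_1206ce_ag.Alg.CDefs
import Pool.Agent.P.MP_1206ce_ag.BO.Defs
import Pool.Agent.P.MP_1206ce_ag.CB.RepB
import Pool.Agent.P.MP_1206ce_ag.Top.Grad

/-! The Coulomb branch theorem: abelianisation of the convolution algebra. -/

noncomputable section

namespace Pool.Agent.HK

theorem Qv.exists_thom (Q : Qv) : ∃ τ, Q.IsThom τ := Q.exists_thom'

theorem Qv.coulMain (Q : Qv) (τ : Fam Q.YN) (hτ : Q.IsThom τ) :
    ∃ (S : Subalgebra ℂ Q.AA) (ab : Q.Fun → S), Q.IsCoul S ∧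
      Presents (Q.IsBM τ) Q.BMEq (Q.IsConv τ) (Q.IsOne τ) ab ∧
      ∀ c, Q.IsBM τ c →
        (∀ θ k, Q.HasWt θ k c ↔ Q.WtA θ k (ab c).1) ∧
        (∀ j, Q.HasDeg j c ↔ ∀ l, Q.FDeg j ((ab c).1.coeff l)) ∧
        ∀ (u : Fam Q.YF) (p : MvPolynomial (Fin Q.nT) ℂ), IsFam False Q.BF u →
          FamEq False Q.BF u (chC id p) → Q.IsBM τ (Q.smulA u c) ∧
            (ab (Q.smulA u c)).1 = Q.iota (MvPolynomial.rename Sum.inr p) * (ab c).1 := by
  obtain ⟨ζ, h⟩ := Qv.exists_thomZ hτ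
  refine ⟨Qv.coulS h, Qv.abel h, Qv.isCoul_coulS h, ⟨fun x => ?_, fun c hc => ?_⟩,
    fun c hc => ?_⟩
  · obtain ⟨c, hc, hr⟩ := Qv.exists_isBM h x.2
    exact ⟨c, hc, Subtype.ext (Qv.abel_eq h hc hr)⟩
  · have hr := Qv.rep_abel h hc
    refine ⟨(Qv.isOne_iff h hc.famV hr).trans
      ⟨fun e => Subtype.ext e, fun e => congrArg Subtype.val e⟩, fun x => ?_, fun c' hc' => ?_⟩
    · have h1 := hr.smul x hc.famV
      have h2 := Qv.isBM_of_rep h (hc.famV.smul x) h1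
      exact ⟨h2, Subtype.ext (Qv.abel_eq h h2 h1)⟩
    · have hr' := Qv.rep_abel h hc'
      have h1 := Qv.Rep.add hc.famV hc'.famV hr hr'
      have h2 := Qv.isBM_of_rep h (hc.famV.add hc'.famV) h1
      exact ⟨(Qv.bmEq_iff h.ne hc.famV hc'.famV hr hr').trans Subtype.ext_iff.symm, h2,
        Subtype.ext (Qv.abel_eq h h2 h1), fun c'' hc'' =>
        (Qv.isConv_iff h hc.famV hc'.famV hc''.famV hr hr' (Qv.rep_abel h hc'')).trans
          ⟨fun e => Subtype.ext e, fun e => congrArg Subtype.val e⟩⟩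
  · have hr := Qv.rep_abel h hc
    refine ⟨Qv.hasWt_iff h.ne hc.famV hr, fun j =>
      ⟨Qv.fDeg_of_hasDeg h.ne hc.famV hr, Qv.hasDeg_of_fDeg hc.famV hr⟩,
      fun u p hu he => ?_⟩
    have h1 := Qv.rep_smulA hc.famV hr hu he
    have h2 := Qv.isBM_of_rep h h1.1 h1.2
    exact ⟨h2, Qv.abel_eq h h2 h1.2⟩

end Pool.Agent.HK
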