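import Pool.Agent.P.MP_1206ce_ag.BO.Ch

/-! Families of classes that are compared with characteristic classes in a stable range. -/

open scoped Topology
open Filter Set MvPolynomial

noncomputable section

namespace Pool.Agent.HK

section fam

variable {Y : Type} [TopologicalSpace Y] {A : ℕ → Set Y} {a b : Fam Y}

theorem Higgs_Z (ha : IsFam False A a) (n : ℕ) : a n ∈ ZZ ⊥ (A n) := cocycle_false.1 (ha.1 n)

theorem Higgs_compat (hA : Monotone A) (ha : IsFam False A a) {n n' : ℕ} (hn : n ≤ n') :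
    a n' - a n ∈ BB ⊥ (A n) := by
  induction n', hn using Nat.le_induction with
  | base =>
    rw [sub_self]
    exact zero_mem _
  | succ m hm ih =>
    have := add_mem (VB_BB_mono (hA hm) (cohom_false.1 (ha.2.1 m))) ih
    rwa [sub_add_sub_cancel] at this

theorem Higgs_fam_zero : IsFam False A (0 : Fam Y) :=
  ⟨fun _ => cocycle_false.2 (zero_mem _),
    fun _ => cohom_false.2 (by rw [Pi.zero_apply, Pi.zero_apply, sub_self]; exact zero_mem _), 0,
    fun _ _ _ => rfl⟩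

theorem Higgs_fam_one : IsFam False A (fun _ => (one : Coch Y)) := by
  obtain ⟨N, hN⟩ := (Bdd.one (Y := Y)).2
  exact ⟨fun n => cocycle_false.2 (one_mem_ZZ _),
    fun _ => cohom_false.2 (by rw [sub_self]; exact zero_mem _), N, fun _ l hl => hN l hl⟩

theorem Higgs_fam_add (ha : IsFam False A a) (hb : IsFam False A b) : IsFam False A (a + b) := by
  obtain ⟨N, hN⟩ := ha.2.2
  obtain ⟨M, hM⟩ := hb.2.2
  refine ⟨fun n => cocycle_false.2 (add_mem (Higgs_Z ha n) (Higgs_Z hb n)),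
    fun n => cohom_false.2 ?_, max N M, fun n l hl => ?_⟩
  · rw [Pi.add_apply, Pi.add_apply, add_sub_add_comm]
    exact add_mem (cohom_false.1 (ha.2.1 n)) (cohom_false.1 (hb.2.1 n))
  · rw [Pi.add_apply, Pi.add_apply, hN n l (by omega), hM n l (by omega), add_zero]

theorem Higgs_fam_smul (z : ℂ) (ha : IsFam False A a) : IsFam False A (z • a) := by
  obtain ⟨N, hN⟩ := ha.2.2
  refine ⟨fun n => cocycle_false.2 (Submodule.smul_mem _ z (Higgs_Z ha n)),
    fun n => cohom_false.2 ?_, N, fun n l hl => ?_⟩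
  · rw [Pi.smul_apply, Pi.smul_apply, ← smul_sub]
    exact Submodule.smul_mem _ z (cohom_false.1 (ha.2.1 n))
  · rw [Pi.smul_apply, Pi.smul_apply, hN n l hl, smul_zero]

theorem Higgs_fam_cup (hA : Monotone A) (ha : IsFam False A a) (hb : IsFam False A b) :
    IsFam False A (cupF a b) := by
  obtain ⟨N, hN⟩ := ha.2.2
  obtain ⟨M, hM⟩ := hb.2.2
  refine ⟨fun n => cocycle_false.2 (cup_mem_ZZ (Higgs_Z ha n) (Higgs_Z hb n)),
    fun n => cohom_false.2 ?_, N + M, fun n l hl => ?_⟩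
  · exact cup_congr (Ch_ZZ_mono (hA (Nat.le_succ n)) (Higgs_Z ha (n + 1))) (Higgs_Z ha n)
      (Ch_ZZ_mono (hA (Nat.le_succ n)) (Higgs_Z hb (n + 1))) (Higgs_Z hb n)
      (cohom_false.1 (ha.2.1 n)) (cohom_false.1 (hb.2.1 n))
  · change cup (a n) (b n) l = 0
    refine Finset.sum_eq_zero fun i hi => ?_
    rw [Finset.mem_range] at hi
    by_cases h : N ≤ i
    · rw [hN n _ (by rw [List.length_take]; omega), zero_mul]
    · rw [hM n _ (by rw [List.length_drop]; omega), mul_zero]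

theorem Higgs_fam_pb {Y₀ : Type} [TopologicalSpace Y₀] {B : ℕ → Set Y₀} {f : Y → Y₀}
    (hf : Continuous f) (hm : ∀ n, MapsTo f (A n) (B n)) {u : Fam Y₀} (hu : IsFam False B u) :
    IsFam False A (pbF f u) := by
  obtain ⟨N, hN⟩ := hu.2.2
  refine ⟨fun n => cocycle_false.2 (pb_mem_ZZ hf.continuousOn (hm n) (Higgs_Z hu n)),
    fun n => cohom_false.2 ?_, N, fun n l hl => hN n _ (by rwa [List.length_map])⟩
  have := pb_mem_BB hf.continuousOn (hm n) (cohom_false.1 (hu.2.1 n))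
  rwa [pb_sub] at this

end fam

/-- The data of the comparison. -/
structure Higgs_D {Y Y' V Λ : Type} [TopologicalSpace Y] [TopologicalSpace Y'] [Fintype V]
    [DecidableEq V] (A : ℕ → Set Y) (A' : ℕ → Set Y') (Φ : Y' → Y) (c : ℕ → ℤ) (lab : V → Λ)
    (χ : MvPolynomial V ℂ → ℕ → Coch Y') (I : Set (MvPolynomial V ℂ)) : Prop where
  monoA : Monotone A
  monoA' : Monotone A'
  iso : ∀ n, IsoBelow (c n) Φ (A' n) (A n)
  big : ∀ k : ℤ, ∀ᶠ n in atTop, k < c n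
  zz : ∀ h ∈ Rinv lab, ∀ n, χ h n ∈ ZZ ⊥ (A' n)
  hom : ∀ (h : MvPolynomial V ℂ) (d : ℕ), h.IsHomogeneous d → ∀ n, HomC (2 * (d : ℤ)) (χ h n)
  zero : ∀ n, χ 0 n = 0
  add : ∀ h ∈ Rinv lab, ∀ h' ∈ Rinv lab, ∀ n, χ (h + h') n - (χ h n + χ h' n) ∈ BB ⊥ (A' n)
  smul : ∀ (z : ℂ), ∀ h ∈ Rinv lab, ∀ n, χ (z • h) n - z • χ h n ∈ BB ⊥ (A' n)
  mul : ∀ h ∈ Rinv lab, ∀ h' ∈ Rinv lab, ∀ n, χ (h * h') n - cup (χ h n) (χ h' n) ∈ BB ⊥ (A' n)
  one : ∀ n, χ 1 n - one ∈ BB ⊥ (A' n)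
  compat : ∀ h ∈ Rinv lab, ∀ n n', n ≤ n' → χ h n' - χ h n ∈ BB ⊥ (A' n)
  surj : ∀ k : ℤ, ∀ᶠ n in atTop, ∀ w ∈ ZZ ⊥ (A' n), HomC k w →
    ∃ r ∈ Rinv lab, (r = 0 ∨ ∃ d : ℕ, k = 2 * (d : ℤ) ∧ r.IsHomogeneous d) ∧
      w - χ r n ∈ BB ⊥ (A' n)
  ker : ∀ d : ℕ, ∀ᶠ n in atTop, ∀ r ∈ Rinv lab, r.IsHomogeneous d →
    (χ r n ∈ BB ⊥ (A' n) ↔ r ∈ I)
  ideal : ∀ h ∈ Rinv lab, h ∈ I ↔ ∀ d, homogeneousComponent d h ∈ I

/-- The family `a` pulls back to the characteristic classes of `h`. -/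
def Higgs_Rep {Y Y' P : Type} [TopologicalSpace Y] [TopologicalSpace Y'] (A : ℕ → Set Y)
    (A' : ℕ → Set Y') (Φ : Y' → Y) (χ : P → ℕ → Coch Y') (a : Fam Y) (h : P) : Prop :=
  IsFam False A a ∧ ∀ᶠ n in atTop, pb Φ (a n) - χ h n ∈ BB ⊥ (A' n)

namespace Higgs_D

variable {Y Y' V Λ : Type} [TopologicalSpace Y] [TopologicalSpace Y'] [Fintype V]
  [DecidableEq V] {A : ℕ → Set Y} {A' : ℕ → Set Y'} {Φ : Y' → Y} {c : ℕ → ℤ} {lab : V → Λ}
  {χ : MvPolynomial V ℂ → ℕ → Coch Y'} {I : Set (MvPolynomial V ℂ)}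
  (H : Higgs_D A A' Φ c lab χ I)
include H

theorem pbZ {n : ℕ} {w : Coch Y} (hw : w ∈ ZZ ⊥ (A n)) : pb Φ w ∈ ZZ ⊥ (A' n) :=
  pb_mem_ZZ (H.iso n).1 (H.iso n).2.1 hw

theorem pbB {n : ℕ} {w : Coch Y} (hw : w ∈ BB ⊥ (A n)) : pb Φ w ∈ BB ⊥ (A' n) :=
  pb_mem_BB (H.iso n).1 (H.iso n).2.1 hw

theorem uniq0 {a b : Fam Y} (ha : IsFam False A a) (hb : IsFam False A b)
    (h : ∀ᶠ n in atTop, pb Φ (a n) - pb Φ (b n) ∈ BB ⊥ (A' n)) : FamEq False A a b := by
  intro n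
  refine cohom_false.2 (VB_BB_of_prC (Ch_bdd (sub_mem (Higgs_Z ha n) (Higgs_Z hb n))) fun k => ?_)
  obtain ⟨m, ⟨h1, h2⟩, h3⟩ := ((h.and (H.big k)).and (eventually_ge_atTop n)).exists
  have h4 : prC k (a m - b m) ∈ BB ⊥ (A m) := by
    refine (H.iso m).2.2.2 k h2 _ (prC_mem_ZZ k (sub_mem (Higgs_Z ha m) (Higgs_Z hb m)))
      (HomC.prC k _) ?_
    rw [← prC_pb, pb_sub]
    exact prC_mem_BB k h1
  have h5 := prC_mem_BB k (sub_mem (Higgs_compat H.monoA ha h3) (Higgs_compat H.monoA hb h3))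
  have h6 := sub_mem (VB_BB_mono (H.monoA h3) h4) h5
  rw [← Basic_prC_sub] at h6
  have e : a m - b m - (a m - a n - (b m - b n)) = a n - b n := by abel
  rwa [e] at h6

theorem uniq {a b : Fam Y} {h : MvPolynomial V ℂ} (ha : Higgs_Rep A A' Φ χ a h)
    (hb : Higgs_Rep A A' Φ χ b h) : FamEq False A a b := by
  refine H.uniq0 ha.1 hb.1 ?_
  filter_upwards [ha.2, hb.2] with n h1 h2
  have := sub_mem h1 h2
  rwa [sub_sub_sub_cancel_right] at this

theorem rep_congr {a b : Fam Y} {h : MvPolynomial V ℂ} (ha : IsFam False A a)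
    (he : FamEq False A a b) (hb : Higgs_Rep A A' Φ χ b h) : Higgs_Rep A A' Φ χ a h := by
  refine ⟨ha, ?_⟩
  filter_upwards [hb.2] with n h1
  have h2 := H.pbB (cohom_false.1 (he n))
  rw [pb_sub] at h2
  have := add_mem h2 h1
  rwa [sub_add_sub_cancel] at this

theorem rep_zero : Higgs_Rep A A' Φ χ 0 0 :=
  ⟨Higgs_fam_zero, Eventually.of_forall fun n => by
    rw [H.zero, Pi.zero_apply, pb_zero, sub_self]
    exact zero_mem _⟩

theorem rep_one : Higgs_Rep A A' Φ χ (fun _ => Pool.Agent.HK.one) 1 :=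
  ⟨Higgs_fam_one, Eventually.of_forall fun n => by
    rw [pb_one, ← neg_sub]
    exact neg_mem (H.one n)⟩

theorem rep_add {a b : Fam Y} {h h' : MvPolynomial V ℂ} (hh : h ∈ Rinv lab) (hh' : h' ∈ Rinv lab)
    (ha : Higgs_Rep A A' Φ χ a h) (hb : Higgs_Rep A A' Φ χ b h') :
    Higgs_Rep A A' Φ χ (a + b) (h + h') := by
  refine ⟨Higgs_fam_add ha.1 hb.1, ?_⟩
  filter_upwards [ha.2, hb.2] with n h1 h2
  have h3 := sub_mem (add_mem h1 h2) (H.add h hh h' hh' n)
  rw [Pi.add_apply, pb_add]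
  have e : pb Φ (a n) - χ h n + (pb Φ (b n) - χ h' n) - (χ (h + h') n - (χ h n + χ h' n)) =
      pb Φ (a n) + pb Φ (b n) - χ (h + h') n := by abel
  rwa [e] at h3

theorem rep_smul (z : ℂ) {a : Fam Y} {h : MvPolynomial V ℂ} (hh : h ∈ Rinv lab)
    (ha : Higgs_Rep A A' Φ χ a h) : Higgs_Rep A A' Φ χ (z • a) (z • h) := by
  refine ⟨Higgs_fam_smul z ha.1, ?_⟩
  filter_upwards [ha.2] with n h1
  have h3 := sub_mem (Submodule.smul_mem _ z h1) (H.smul z h hh n)
  rw [smul_sub, sub_sub_sub_cancel_right] at h3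
  rwa [Pi.smul_apply, pb_smul]

theorem rep_mul {a b : Fam Y} {h h' : MvPolynomial V ℂ} (hh : h ∈ Rinv lab) (hh' : h' ∈ Rinv lab)
    (ha : Higgs_Rep A A' Φ χ a h) (hb : Higgs_Rep A A' Φ χ b h') :
    Higgs_Rep A A' Φ χ (cupF a b) (h * h') := by
  refine ⟨Higgs_fam_cup H.monoA ha.1 hb.1, ?_⟩
  filter_upwards [ha.2, hb.2] with n h1 h2
  have h3 := sub_mem (cup_congr (H.pbZ (Higgs_Z ha.1 n)) (H.zz h hh n) (H.pbZ (Higgs_Z hb.1 n))
    (H.zz h' hh' n) h1 h2) (H.mul h hh h' hh' n)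
  rw [sub_sub_sub_cancel_right, ← pb_cup] at h3
  exact h3

theorem rep_sum {ι : Type} (s : Finset ι) {a : ι → Fam Y} {h : ι → MvPolynomial V ℂ}
    (hh : ∀ i ∈ s, h i ∈ Rinv lab) (ha : ∀ i ∈ s, Higgs_Rep A A' Φ χ (a i) (h i)) :
    Higgs_Rep A A' Φ χ (∑ i ∈ s, a i) (∑ i ∈ s, h i) := by
  classical
  induction s using Finset.induction_on with
  | empty => exact H.rep_zero
  | insert i s hi ih =>
    rw [Finset.sum_insert hi, Finset.sum_insert hi]
    exact H.rep_add (hh i (Finset.mem_insert_self _ _))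
      (sum_mem fun j hj => hh j (Finset.mem_insert_of_mem hj)) (ha i (Finset.mem_insert_self _ _))
      (ih (fun j hj => hh j (Finset.mem_insert_of_mem hj))
        fun j hj => ha j (Finset.mem_insert_of_mem hj))

theorem chi_sum {ι : Type} (s : Finset ι) {h : ι → MvPolynomial V ℂ}
    (hh : ∀ i ∈ s, h i ∈ Rinv lab) (n : ℕ) :
    χ (∑ i ∈ s, h i) n - ∑ i ∈ s, χ (h i) n ∈ BB ⊥ (A' n) := by
  classical
  induction s using Finset.induction_on with
  | empty =>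
    rw [Finset.sum_empty, Finset.sum_empty, H.zero, sub_self]
    exact zero_mem _
  | insert i s hi ih =>
    rw [Finset.sum_insert hi, Finset.sum_insert hi]
    have h1 := add_mem (H.add _ (hh i (Finset.mem_insert_self _ _)) _
      (sum_mem fun j hj => hh j (Finset.mem_insert_of_mem hj)) n)
      (ih fun j hj => hh j (Finset.mem_insert_of_mem hj))
    have e : ∀ x y z w : Coch Y', x - (y + z) + (z - w) = x - (y + w) := fun x y z w => by abel
    rwa [e] at h1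

theorem chi_sub {h h' : MvPolynomial V ℂ} (hh : h ∈ Rinv lab) (hh' : h' ∈ Rinv lab) (n : ℕ) :
    χ (h - h') n - (χ h n - χ h' n) ∈ BB ⊥ (A' n) := by
  have h1 := neg_mem (H.add _ (sub_mem hh hh') _ hh' n)
  rw [sub_add_cancel] at h1
  have e : ∀ x y z : Coch Y', -(x - (y + z)) = y - (x - z) := fun x y z => by abel
  rwa [e] at h1

theorem prC_chi {h : MvPolynomial V ℂ} (hh : h ∈ Rinv lab) (d n : ℕ) :
    prC (2 * (d : ℤ)) (χ h n) - χ (homogeneousComponent d h) n ∈ BB ⊥ (A' n) := by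
  have h1 := prC_mem_BB (2 * (d : ℤ)) (H.chi_sum (Finset.range (h.totalDegree + 1))
    (h := fun i => homogeneousComponent i h) (fun i _ => homogeneousComponent_mem_Rinv hh i) n)
  rw [sum_homogeneousComponent, Basic_prC_sub, Ch_prC_sum, Finset.sum_eq_single d,
    (H.hom _ d (homogeneousComponent_isHomogeneous d h) n).prC_self] at h1
  · exact h1
  · intro i _ hi
    exact (H.hom _ i (homogeneousComponent_isHomogeneous i h) n).prC_ne (by omega)
  · intro hd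
    rw [homogeneousComponent_eq_zero _ _ (by rw [Finset.mem_range] at hd; omega), H.zero]
    funext l
    simp [prC]

theorem exists_hom {h : MvPolynomial V ℂ} (hh : h ∈ Rinv lab) {d : ℕ} (hd : h.IsHomogeneous d) :
    ∃ a, Higgs_Rep A A' Φ χ a h ∧ Homog (2 * (d : ℤ)) a := by
  obtain ⟨N, hN⟩ := eventually_atTop.1 (H.big (2 * (d : ℤ)))
  choose w hw1 hw2 hw3 using fun n : ℕ => (H.iso (max n N)).2.2.1 _ (hN _ (le_max_right n N)) _
    (H.zz h hh (max n N)) (H.hom h d hd _)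
  refine ⟨w, ⟨⟨fun n => cocycle_false.2 (Ch_ZZ_mono (H.monoA (le_max_left n N)) (hw1 n)),
    fun n => cohom_false.2 (VB_BB_mono (H.monoA (le_max_left n N)) ?_), 2 * d + 1,
    fun n l hl => hw2 n l (by omega)⟩, ?_⟩, fun n => hw2 n⟩
  · have hle : max n N ≤ max (n + 1) N := max_le_max (Nat.le_succ n) le_rfl
    refine (H.iso (max n N)).2.2.2 _ (hN _ (le_max_right n N)) _
      (sub_mem (Ch_ZZ_mono (H.monoA hle) (hw1 (n + 1))) (hw1 n))
      (fun l hl => by rw [Pi.sub_apply, hw2 _ l hl, hw2 _ l hl, sub_self]) ?_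
    have h1 := add_mem (sub_mem (H.compat h hh _ _ hle) (VB_BB_mono (H.monoA' hle) (hw3 (n + 1))))
      (hw3 n)
    rw [sub_sub_sub_cancel_left, sub_add_sub_cancel] at h1
    rwa [pb_sub]
  · filter_upwards [eventually_ge_atTop N] with n hn
    have h1 := neg_mem (hw3 n)
    rwa [max_eq_left hn, neg_sub] at h1

theorem exists_rep {h : MvPolynomial V ℂ} (hh : h ∈ Rinv lab) : ∃ a, Higgs_Rep A A' Φ χ a h := by
  choose a ha _ using fun d : ℕ => H.exists_hom (homogeneousComponent_mem_Rinv hh d)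
    (homogeneousComponent_isHomogeneous d h)
  have := H.rep_sum (Finset.range (h.totalDegree + 1))
    (fun i _ => homogeneousComponent_mem_Rinv hh i) fun i _ => ha i
  rw [sum_homogeneousComponent] at this
  exact ⟨_, this⟩

theorem surj_deg {a : Fam Y} (ha : IsFam False A a) (k : ℕ) : ∃ r ∈ Rinv lab,
    ∀ᶠ n in atTop, pb Φ (prC (k : ℤ) (a n)) - χ r n ∈ BB ⊥ (A' n) := by
  obtain ⟨N, hN⟩ := eventually_atTop.1 ((H.surj k).and (H.ker (k / 2)))
  have key : ∀ n, N ≤ n → ∃ r ∈ Rinv lab, r.IsHomogeneous (k / 2) ∧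
      pb Φ (prC (k : ℤ) (a n)) - χ r n ∈ BB ⊥ (A' n) := by
    intro n hn
    obtain ⟨r, hr, h1, h2⟩ := (hN n hn).1 _ (H.pbZ (prC_mem_ZZ k (Higgs_Z ha n)))
      ((HomC.prC k _).pb Φ)
    refine ⟨r, hr, ?_, h2⟩
    rcases h1 with rfl | ⟨d, hd, h1⟩
    · exact isHomogeneous_zero _ _ _
    · rwa [show k / 2 = d by omega]
  obtain ⟨r, hr, hrd, h1⟩ := key N le_rfl
  refine ⟨r, hr, ?_⟩
  filter_upwards [eventually_ge_atTop N] with n hn
  obtain ⟨r', hr', hrd', h2⟩ := key n hn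
  have h3 := H.pbB (prC_mem_BB (k : ℤ) (Higgs_compat H.monoA ha hn))
  rw [Basic_prC_sub, pb_sub] at h3
  have h4 : χ (r' - r) N ∈ BB ⊥ (A' N) := by
    have h5 := add_mem (H.chi_sub hr' hr N) (sub_mem (sub_mem (add_mem h1 h3)
      (VB_BB_mono (H.monoA' hn) h2)) (H.compat r' hr' N n hn))
    have e : ∀ x y z p q s : Coch Y',
        x - (y - z) + (p - z + (q - p) - (q - s) - (s - y)) = x := fun x y z p q s => by abel
    rwa [e] at h5
  have h6 := ((hN n hn).2 _ (sub_mem hr' hr) (hrd'.sub hrd)).2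
    (((hN N le_rfl).2 _ (sub_mem hr' hr) (hrd'.sub hrd)).1 h4)
  have h7 := add_mem h2 (sub_mem h6 (H.chi_sub hr' hr n))
  have e : ∀ x y z p : Coch Y', p - y + (x - (x - (y - z))) = p - z := fun x y z p => by abel
  rwa [e] at h7

theorem surj_rep {a : Fam Y} (ha : IsFam False A a) : ∃ h ∈ Rinv lab, Higgs_Rep A A' Φ χ a h := by
  obtain ⟨N, hN⟩ := ha.2.2
  choose r hr h1 using H.surj_deg ha
  refine ⟨∑ k ∈ Finset.range N, r k, sum_mem fun k _ => hr k, ha, ?_⟩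
  filter_upwards [(eventually_all_finset (Finset.range N)).2 fun k _ => h1 k] with n hn
  have h2 := sub_mem (sum_mem hn) (H.chi_sum (Finset.range N) (fun k _ => hr k) n)
  rwa [Finset.sum_sub_distrib, sub_sub_sub_cancel_right, ← pb_sum,
    ← Ch_sum_range (Ch_bdd (Higgs_Z ha n)).1 (hN n)] at h2

theorem ker_rep {a : Fam Y} {h : MvPolynomial V ℂ} (hh : h ∈ Rinv lab)
    (ha : Higgs_Rep A A' Φ χ a h) : FamEq False A a 0 ↔ h ∈ I := by
  rw [H.ideal h hh]
  constructor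
  · intro h0 d
    obtain ⟨n, h1, h2⟩ := (ha.2.and (H.ker d)).exists
    refine (h2 _ (homogeneousComponent_mem_Rinv hh d) (homogeneousComponent_isHomogeneous d h)).1 ?_
    have h3 := cohom_false.1 (h0 n)
    rw [Pi.zero_apply, sub_zero] at h3
    have h4 := sub_mem (H.pbB h3) h1
    rw [sub_sub_cancel] at h4
    have h5 := sub_mem (prC_mem_BB (2 * (d : ℤ)) h4) (H.prC_chi hh d n)
    rwa [sub_sub_cancel] at h5
  · intro h0
    refine H.uniq0 ha.1 Higgs_fam_zero ?_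
    filter_upwards [ha.2, (eventually_all_finset (Finset.range (h.totalDegree + 1))).2
      fun d _ => H.ker d] with n h1 h2
    have h3 := H.chi_sum (Finset.range (h.totalDegree + 1))
      (h := fun i => homogeneousComponent i h) (fun i _ => homogeneousComponent_mem_Rinv hh i) n
    rw [sum_homogeneousComponent] at h3
    have h4 := add_mem h1 (add_mem h3 (sum_mem fun d hd => (h2 d hd _
      (homogeneousComponent_mem_Rinv hh d) (homogeneousComponent_isHomogeneous d h)).2 (h0 d)))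
    rw [sub_add_cancel, sub_add_cancel] at h4
    rwa [Pi.zero_apply, pb_zero, sub_zero]

end Higgs_D

section chX

variable {V Λ X : Type} [Fintype V] [DecidableEq V] [TopologicalSpace X] {lab : V → Λ}
  {L : Set (Matrix V V ℂ)} {act : Matrix V V ℂ → X → X} (ha : IsAct L act) (hL : L ⊆ KG lab)
  {P : Set (X × Fr V)} {n : ℕ} (hn : ∀ p ∈ P, p.2 ∈ Inj lab n)
include ha hL hn

theorem Higgs_chX_add {h h' : MvPolynomial V ℂ} (hh : h ∈ Rinv lab) (hh' : h' ∈ Rinv lab) :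
    chX lab L act (h + h') n - (chX lab L act h n + chX lab L act h' n) ∈ BB ⊥ (BI L act P) := by
  have := pb_toPt_BB ha hL hn (chC_add hh hh' n)
  rwa [pb_sub, pb_add] at this

theorem Higgs_chX_smul (z : ℂ) {h : MvPolynomial V ℂ} (hh : h ∈ Rinv lab) :
    chX lab L act (z • h) n - z • chX lab L act h n ∈ BB ⊥ (BI L act P) := by
  have := pb_toPt_BB ha hL hn (chC_smul z hh n)
  rwa [pb_sub, pb_smul] at this

theorem Higgs_chX_mul {h h' : MvPolynomial V ℂ} (hh : h ∈ Rinv lab) (hh' : h' ∈ Rinv lab) :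
    chX lab L act (h * h') n - cup (chX lab L act h n) (chX lab L act h' n) ∈
      BB ⊥ (BI L act P) := by
  have := pb_toPt_BB ha hL hn (chC_mul hh hh' n)
  rwa [pb_sub, pb_cup] at this

theorem Higgs_chX_one : chX lab L act 1 n - one ∈ BB ⊥ (BI L act P) := by
  have := pb_toPt_BB ha hL hn (chC_one lab n)
  rwa [pb_sub, pb_one] at this

theorem Higgs_chX_compat {h : MvPolynomial V ℂ} (hh : h ∈ Rinv lab) {n' : ℕ} (hle : n ≤ n') :
    chX lab L act h n' - chX lab L act h n ∈ BB ⊥ (BI L act P) := by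
  have := pb_toPt_BB ha hL hn (chC_compat hh hle)
  rwa [pb_sub] at this

end chX

theorem Higgs_chX_frozen {V Λ X : Type} [Fintype V] [DecidableEq V] [TopologicalSpace X]
    {lab : V → Λ} {fr : Set V} {act : Matrix V V ℂ → X → X} (ha : IsAct (KF lab fr) act)
    {P : Set (X × Fr V)} {n : ℕ} (hn : ∀ p ∈ P, p.2 ∈ Inj lab n) {k : V} (hk : k ∈ fr)
    (h1 : ∀ l, lab l = lab k → l = k) {r : MvPolynomial V ℂ} (hr : r ∈ Rinv lab) :
    chX lab (KF lab fr) act (MvPolynomial.X k * r) n ∈ BB ⊥ (BI (KF lab fr) act P) := by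
  have hL := KF_subset lab fr
  have h2 := add_mem (Higgs_chX_mul ha hL hn (X_mem_Rinv h1) hr)
    (cup_mem_BB_left (Ch_bdd (chX_mem_ZZ ha hL hn (X_mem_Rinv h1))).1 (chX_frozen ha hn hk h1)
      (chX_mem_ZZ ha hL hn hr))
  rwa [sub_add_cancel] at h2

end Pool.Agent.HK
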