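import Pool.Agent.P.MP_1206ce_ag.Alg.CDefs
import Pool.Agent.P.MP_1206ce_ag.HG.Chain
import Pool.Agent.P.MP_1206ce_ag.HG.Gys
import Pool.Agent.P.MP_1206ce_ag.HG.Compare
import Pool.Agent.P.MP_1206ce_ag.Top.Higgs_Abs

/-! The Higgs branch theorem: `H_F(M) = H / I'`. -/

noncomputable section

namespace Pool.Agent.HK

section aux

open Filter Set MvPolynomial

namespace Qv

variable (Q : Qv)

theorem Higgs_K3 : Q.K3 ⊆ KG Q.hd.lab0 := KF_subset _ _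

theorem Higgs_act : IsAct Q.K3 Q.hd.act :=
  (Q.hd.isAct_K (HD.one _)).mono (isGrp_KF _ _) Q.Higgs_K3

theorem Higgs_single {θ : Fin Q.nI → ℤ} (hθ : Q.Generic θ) (l : Q.HV)
    (hl : Q.hd.lab0 l = Q.hd.lab0 (Sum.inl none)) : l = Sum.inl none := by
  cases l with
  | inl k =>
    have h1 : Q.hd.v k = Q.hd.v none := by simpa [HD.lab] using hl
    rw [(Q.gen0 hθ).single k h1]
  | inr a => exact absurd hl (by simp [HD.lab])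

theorem Higgs_inc_mem {h : Q.Pol} (hh : h ∈ Rinv Q.lab) : rename Q.inc h ∈ Rinv Q.hd.lab0 :=
  rename_mem_Rinv Q.inc_injective (fun a b e => (Q.inc_lab a b).1 e) Q.inc_block hh

/-- The cohomology of the Borel construction of the zero fibre in the stable range. -/
theorem Higgs_pd {θ : Fin Q.nI → ℤ} (hθ : Q.Generic θ) : ∃ Ann : Set (MvPolynomial Q.HV ℂ),
    IsAnn Q.hd.lab0 Ann ∧ (∀ h ∈ Rinv Q.hd.lab0, h ∈ Ann ↔ Q.spec3 h ∈ Q.Ipr) ∧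
    (∀ k : ℤ, ∀ᶠ n in atTop,
      ∀ w ∈ ZZ ⊥ (BS Q.K3 Q.hd.act (Q.hd.Z0 (Q.thb θ)) (Inj Q.hd.lab0 n)), HomC k w →
      ∃ r ∈ Rinv Q.hd.lab0, (r = 0 ∨ ∃ d : ℕ, k = 2 * (d : ℤ) ∧ r.IsHomogeneous d) ∧
        w - chX Q.hd.lab0 Q.K3 Q.hd.act r n ∈
          BB ⊥ (BS Q.K3 Q.hd.act (Q.hd.Z0 (Q.thb θ)) (Inj Q.hd.lab0 n))) ∧
    ∀ d : ℕ, ∀ᶠ n in atTop, ∀ r ∈ Rinv Q.hd.lab0, r.IsHomogeneous d →
      (chX Q.hd.lab0 Q.K3 Q.hd.act r n ∈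
        BB ⊥ (BS Q.K3 Q.hd.act (Q.hd.Z0 (Q.thb θ)) (Inj Q.hd.lab0 n)) ↔ r ∈ Ann) := by
  obtain ⟨key, hk⟩ := Q.hd.exists_key (Q.thb θ)
  obtain ⟨kr, hkr⟩ := Q.hd.exists_kr (HD.one _)
  obtain ⟨hSP, hLOW⟩ := (Q.hd.jordan (HD.one _)).2 kr hkr
  have hg := Q.gen0 hθ
  have ha : IsAct (KG Q.hd.lab0) Q.hd.act := Q.hd.isAct_K (HD.one _)
  have hS : InvX (KG Q.hd.lab0) Q.hd.act (Q.hd.Z0 (Q.thb θ)) := Q.hd.invX_Z0 _
  have hE := Q.hd.locEuc_Z0 hg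
  have h0 : ∀ L, L = KG Q.hd.lab0 →
      ∃ (η : ∀ n, EE (BS L Q.hd.act (Q.hd.Z0 (Q.thb θ)) (Inj Q.hd.lab0 n))) (i₀ : ℤ),
        Cyc Q.hd.lab0 L Q.hd.act (Q.hd.Z0 (Q.thb θ)) η i₀ (Q.hd.Ann0 key) ∧ ∀ n, LN _ (η n) := by
    rintro L rfl
    exact Q.hd.chain hk hg
  obtain ⟨η₀, i₀, c₀, l₀⟩ := h0 _ (KF_empty Q.hd.lab0)
  have a₀ := Q.hd.isAnn_Ann0 key
  have a₁ := HD.IsAnn.annAdd a₀ (x := Sum.inr Q.hd.hh) Q.hd.Reg_lab_inr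
  have a₂ := HD.IsAnn.annAdd a₁ (x := Sum.inr Q.hd.bb) Q.hd.Reg_lab_inr
  have a₃ := HD.IsAnn.annAdd a₂ (x := Sum.inl none) (Q.Higgs_single hθ)
  obtain ⟨η₁, c₁, l₁⟩ := Cyc.gysin ha hS hE (k := Sum.inr Q.hd.hh) (notMem_empty _)
    Q.hd.Reg_lab_inr c₀ a₀ (Q.hd.reg1 hk hg hkr hSP hLOW) l₀
  obtain ⟨η₂, c₂, l₂⟩ := Cyc.gysin ha hS hE (k := Sum.inr Q.hd.bb) (by simp [hd])
    Q.hd.Reg_lab_inr c₁ a₁ (Q.hd.reg2 hk hg hkr hSP hLOW) l₁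
  obtain ⟨η₃, c₃, l₃⟩ := Cyc.gysin ha hS hE (k := Sum.inl none) (by simp)
    (Q.Higgs_single hθ) c₂ a₂ (Q.hd.reg3 hk hg) l₂
  have h4 := Cyc.pd Q.Higgs_act Q.Higgs_K3 c₃ (fun n => locEuc_BS Q.Higgs_act
    (fun u hu => hS u (Q.Higgs_K3 hu)) hE (invF_Inj Q.Higgs_K3 n) (openIn_Inj _ n) Subset.rfl) l₃
  exact ⟨Q.hd.Ann3 key none, a₃, fun h hh => Q.link hθ hk hkr hSP hLOW hh, h4.1, h4.2⟩

/-- The characteristic cocycles on the Borel construction of the zero fibre. -/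
def Higgs_chi (h : Q.Pol) (n : ℕ) : Coch (Bor Q.K3 Q.hd.act) :=
  chX Q.hd.lab0 Q.K3 Q.hd.act (rename Q.inc h) n

/-- The Borel construction of the zero fibre. -/
def Higgs_A (θ : Fin Q.nI → ℤ) (n : ℕ) : Set (Bor Q.K3 Q.hd.act) :=
  BI Q.K3 Q.hd.act (Q.hd.Z0 (Q.thb θ) ×ˢ St Q.hd.lab0 n)

theorem Higgs_A_eq (θ : Fin Q.nI → ℤ) (n : ℕ) :
    BS Q.K3 Q.hd.act (Q.hd.Z0 (Q.thb θ)) (St Q.hd.lab0 n) = Q.Higgs_A θ n := BS_eq _ _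

theorem Higgs_hn (θ : Fin Q.nI → ℤ) (n : ℕ) :
    ∀ p ∈ Q.hd.Z0 (Q.thb θ) ×ˢ St Q.hd.lab0 n, p.2 ∈ Inj Q.hd.lab0 n :=
  fun _ hp => St_subset_Inj _ n hp.2

theorem Higgs_spec {θ : Fin Q.nI → ℤ} (hθ : Q.Generic θ) {r : MvPolynomial Q.HV ℂ}
    (hr : r ∈ Rinv Q.hd.lab0) (n : ℕ) :
    chX Q.hd.lab0 Q.K3 Q.hd.act r n - Q.Higgs_chi (Q.spec3 r) n ∈ BB ⊥ (Q.Higgs_A θ n) := by
  obtain ⟨r₁, h₁, r₂, h₂, r₃, h₃, e⟩ := Q.sub_spec3 hr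
  have hn := Q.Higgs_hn θ n
  have m₁ := mul_mem (X_mem_Rinv (Q.hd.Reg_lab_inr (sl := HD.one _) (a := none))) h₁
  have m₂ := mul_mem (X_mem_Rinv (Q.hd.Reg_lab_inr (sl := HD.one _) (a := some 0))) h₂
  have m₃ := mul_mem (X_mem_Rinv (Q.Higgs_single hθ)) h₃
  have b₁ := Higgs_chX_frozen Q.Higgs_act hn (k := Sum.inr none) (by simp) Q.hd.Reg_lab_inr h₁
  have b₂ := Higgs_chX_frozen Q.Higgs_act hn (k := Sum.inr (some 0)) (by simp) Q.hd.Reg_lab_inr h₂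
  have b₃ := Higgs_chX_frozen Q.Higgs_act hn (k := Sum.inl none) (by simp) (Q.Higgs_single hθ) h₃
  have c₁ := add_mem (Higgs_chX_add Q.Higgs_act Q.Higgs_K3 hn m₁ m₂) (add_mem b₁ b₂)
  rw [sub_add_cancel] at c₁
  have c₂ := add_mem (Higgs_chX_add Q.Higgs_act Q.Higgs_K3 hn (add_mem m₁ m₂) m₃) (add_mem c₁ b₃)
  rw [sub_add_cancel, ← e] at c₂
  have hs := Q.Higgs_inc_mem (Q.spec3_mem hr)
  have c₃ := add_mem (Higgs_chX_add Q.Higgs_act Q.Higgs_K3 hn (sub_mem hr hs) hs) c₂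
  rw [sub_add_cancel] at c₃
  have e' : ∀ x y z : Coch (Bor Q.K3 Q.hd.act), x - (y + z) + y = x - z := fun x y z => by abel
  rwa [e'] at c₃

theorem Higgs_data {θ : Fin Q.nI → ℤ} (hθ : Q.Generic θ) :
    Higgs_D (Q.BM θ) (Q.Higgs_A θ) Q.Phi (rng Q.HV) Q.lab Q.Higgs_chi Q.Ipr := by
  obtain ⟨Ann, hA, hI, hsu, hke⟩ := Q.Higgs_pd hθ
  have ha := Q.Higgs_act
  have hL := Q.Higgs_K3
  have hn := Q.Higgs_hn θ
  have hiso : ∀ n c, IsoBelow c id (Q.Higgs_A θ n)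
      (BS Q.K3 Q.hd.act (Q.hd.Z0 (Q.thb θ)) (Inj Q.hd.lab0 n)) := fun n c => by
    rw [← Higgs_A_eq]
    exact isoBelow_St_Inj ha hL (fun u hu => Q.hd.invX_Z0 _ u (hL hu)) (Q.hd.lc_Z0 _) n c
  have hI' : ∀ h ∈ Rinv Q.lab, rename Q.inc h ∈ Ann ↔ h ∈ Q.Ipr := fun h hh => by
    rw [hI _ (Q.Higgs_inc_mem hh), spec3_rename]
  refine ⟨fun n n' h => Ch_BS_mono (St_mono _ h), fun n n' h => ?_, fun n => ?_, fun k => ?_,
    fun h hh n => chX_mem_ZZ ha hL (hn n) (Q.Higgs_inc_mem hh),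
    fun h d hd n => chX_homC hd.rename_isHomogeneous n, fun n => ?_, fun h hh h' hh' n => ?_,
    fun z h hh n => ?_, fun h hh h' hh' n => ?_, fun n => ?_,
    fun h hh n n' hle => Higgs_chX_compat ha hL (hn n) (Q.Higgs_inc_mem hh) hle,
    fun k => ?_, fun d => ?_, fun h hh => ?_⟩
  · rw [← Higgs_A_eq, ← Higgs_A_eq]
    exact Ch_BS_mono (St_mono _ h)
  · rw [← Higgs_A_eq]
    exact Q.compare hθ n
  · filter_upwards [eventually_ge_atTop (k.toNat + Fintype.card Q.HV + 1)] with n h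
    unfold rng
    omega
  · rw [Higgs_chi, map_zero, chX, chC_zero, pb_zero]
  · rw [Higgs_chi, map_add]
    exact Higgs_chX_add ha hL (hn n) (Q.Higgs_inc_mem hh) (Q.Higgs_inc_mem hh')
  · rw [Higgs_chi, map_smul]
    exact Higgs_chX_smul ha hL (hn n) z (Q.Higgs_inc_mem hh)
  · rw [Higgs_chi, map_mul]
    exact Higgs_chX_mul ha hL (hn n) (Q.Higgs_inc_mem hh) (Q.Higgs_inc_mem hh')
  · rw [Higgs_chi, map_one]
    exact Higgs_chX_one ha hL (hn n)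
  · filter_upwards [hsu k] with n h w hw hk
    obtain ⟨w₀, h1, h2, h3⟩ := (hiso n (k + 1)).2.2.1 k (by omega) w hw hk
    obtain ⟨r, hr, h4, h5⟩ := h w₀ h1 h2
    rw [pb_id] at h3
    refine ⟨Q.spec3 r, Q.spec3_mem hr, ?_, ?_⟩
    · rcases h4 with rfl | ⟨d, hd, h4⟩
      · exact Or.inl (map_zero _)
      · exact Or.inr ⟨d, hd, Q.spec3_isHomogeneous h4⟩
    · have h6 := add_mem (add_mem h3 (VB_BB_mono (hiso n 0).2.1 h5)) (Q.Higgs_spec hθ hr n)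
      rwa [sub_add_sub_cancel, sub_add_sub_cancel] at h6
  · filter_upwards [hke d] with n h r hr hd
    rw [← hI' r hr, ← h _ (Q.Higgs_inc_mem hr) hd.rename_isHomogeneous]
    refine ⟨fun h1 => Ch_iso_inj (hiso n) ?_ h1, fun h1 => VB_BB_mono (hiso n 0).2.1 h1⟩
    rw [BS_eq]
    exact chX_mem_ZZ ha hL (fun p hp => hp.2) (Q.Higgs_inc_mem hr)
  · rw [← hI' h hh]
    constructor
    · intro h1 d
      rw [← hI' _ (homogeneousComponent_mem_Rinv hh d), rename_homogeneousComponent]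
      exact hA.hom _ h1 d
    · intro h1
      rw [← sum_homogeneousComponent h, map_sum]
      exact Finset.sum_induction _ (· ∈ Ann) (fun a b ha hb => hA.add a ha b hb) hA.zero
        fun d _ => (hI' _ (homogeneousComponent_mem_Rinv hh d)).2 (h1 d)

theorem Higgs_id_mem (p : MvPolynomial (Fin Q.nT) ℂ) : p ∈ Rinv (id : Fin Q.nT → Fin Q.nT) := by
  refine mem_Rinv.2 fun w hw => ?_
  have h1 : (w : Fin Q.nT → Fin Q.nT) = id := funext fun k => mem_Wl.1 hw k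
  rw [h1, rename_id_apply]

theorem Higgs_inr_mem (p : MvPolynomial (Fin Q.nT) ℂ) :
    (rename Sum.inr p : Q.Pol) ∈ Rinv Q.lab := by
  refine rename_mem_Rinv (lab' := id) Sum.inr_injective (fun k l h => ?_) (fun k x h => ?_)
    (Q.Higgs_id_mem p)
  · simpa [lab] using h
  · cases x with
    | inl i => simp [lab] at h
    | inr i => exact ⟨i, rfl⟩

theorem Higgs_flav {θ : Fin Q.nI → ℤ} (hθ : Q.Generic θ) {u : Fam Q.YF}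
    {p : MvPolynomial (Fin Q.nT) ℂ} (hu : IsFam False Q.BF u)
    (hp : FamEq False Q.BF u (chC id p)) :
    Higgs_Rep (Q.BM θ) (Q.Higgs_A θ) Q.Phi Q.Higgs_chi
      (pbF (bmap Q.FF ptAct (fun _ => ()) id) u) (rename Sum.inr p) := by
  have hc := Q.isAct_actM.continuous_toPt (L₁ := Q.FF) Subset.rfl
  have hm : ∀ n, MapsTo (bmap Q.FF ptAct (fun _ => ()) id : Q.YM → Q.YF) (Q.BM θ n) (Q.BF n) := by
    intro n
    rw [BM, BS_eq]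
    exact Q.isAct_actM.mapsTo_toPt Subset.rfl fun p hp => hp.2
  refine ⟨Higgs_fam_pb hc hm hu, Eventually.of_forall fun n => ?_⟩
  have h1 := (Q.Higgs_data hθ).pbB (pb_mem_BB hc.continuousOn (hm n) (cohom_false.1 (hp n)))
  obtain ⟨-, hb, h2⟩ := chC_restr (lab := Q.hd.lab0) (lab' := (id : Fin Q.nT → Fin Q.nT))
    (ι := fun a => Q.inc (Sum.inr a)) (Q.inc_injective.comp Sum.inr_injective)
    (fun k l => by rw [inc_lab]; simp [lab])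
    (fun k x hx => ⟨k, (Q.hd.Reg_lab_inr (a := some k.succ) x hx).symm⟩) (Q.Higgs_id_mem p) n
  have h3 := pb_toPt_BB Q.Higgs_act Q.Higgs_K3 (Q.Higgs_hn θ n) h2
  have e : (bmap (KG (id : Fin Q.nT → Fin Q.nT)) ptAct (fun _ => ())
      (fun e j k => e j (Q.inc (Sum.inr k))) : Bor (KG Q.hd.lab0) ptAct → Q.YF) ∘
      (bmap (KG Q.hd.lab0) ptAct (fun _ => ()) id : Bor Q.K3 Q.hd.act → _) =
      (bmap Q.FF ptAct (fun _ => ()) id : Q.YM → Q.YF) ∘ Q.Phi := by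
    rw [toPt_Phi]
    funext q
    exact hb (Quot.out q).2
  rw [pb_sub, pb_pb, e, ← pb_pb] at h3
  rw [pb_sub, pb_sub] at h1
  have h4 := add_mem h1 h3
  rw [sub_add_sub_cancel] at h4
  rw [Higgs_chi, rename_rename]
  exact h4

end Qv

end aux

theorem Qv.higgsMain (Q : Qv) (θ : Fin Q.nI → ℤ) (hθ : Q.Generic θ) :
    ∃ ψ : Q.Pol → Fam Q.YM,
      (∀ h ∈ Rinv Q.lab, IsFam False (Q.BM θ) (ψ h)) ∧
      (∀ h ∈ Rinv Q.lab, ∀ h' ∈ Rinv Q.lab, FamEq False (Q.BM θ) (ψ (h + h')) (ψ h + ψ h') ∧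
        FamEq False (Q.BM θ) (ψ (h * h')) (cupF (ψ h) (ψ h'))) ∧
      (∀ (z : ℂ), ∀ h ∈ Rinv Q.lab, FamEq False (Q.BM θ) (ψ (z • h)) (z • ψ h)) ∧
      FamEq False (Q.BM θ) (ψ 1) (fun _ => one) ∧
      (∀ a, IsFam False (Q.BM θ) a → ∃ h ∈ Rinv Q.lab, FamEq False (Q.BM θ) a (ψ h)) ∧
      (∀ h ∈ Rinv Q.lab, FamEq False (Q.BM θ) (ψ h) 0 ↔ h ∈ Q.Ipr) ∧
      (∀ h ∈ Rinv Q.lab, ∀ d : ℕ, h.IsHomogeneous d →
        ∃ a, IsFam False (Q.BM θ) a ∧ Homog (2 * (d : ℤ)) a ∧ FamEq False (Q.BM θ) a (ψ h)) ∧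
      ∀ (u : Fam Q.YF) (p : MvPolynomial (Fin Q.nT) ℂ), IsFam False Q.BF u →
        FamEq False Q.BF u (chC id p) → ∀ a, ∀ h ∈ Rinv Q.lab, IsFam False (Q.BM θ) a →
          FamEq False (Q.BM θ) a (ψ h) → IsFam False (Q.BM θ) (Q.smulH u a) ∧
            FamEq False (Q.BM θ) (Q.smulH u a) (ψ (MvPolynomial.rename Sum.inr p * h)) := by
  have H := Q.Higgs_data hθ
  have h0 : ∀ h : Q.Pol, ∃ a, h ∈ Rinv Q.lab →
      Higgs_Rep (Q.BM θ) (Q.Higgs_A θ) Q.Phi Q.Higgs_chi a h := by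
    intro h
    by_cases hh : h ∈ Rinv Q.lab
    · obtain ⟨a, ha⟩ := H.exists_rep hh
      exact ⟨a, fun _ => ha⟩
    · exact ⟨0, fun h1 => absurd h1 hh⟩
  choose ψ hψ using h0
  refine ⟨ψ, fun h hh => (hψ h hh).1, fun h hh h' hh' => ⟨?_, ?_⟩, fun z h hh => ?_, ?_,
    fun a ha => ?_, fun h hh => H.ker_rep hh (hψ h hh), fun h hh d hd => ?_,
    fun u p hu hp a h hh ha he => ?_⟩
  · exact H.uniq (hψ _ (add_mem hh hh')) (H.rep_add hh hh' (hψ h hh) (hψ h' hh'))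
  · exact H.uniq (hψ _ (mul_mem hh hh')) (H.rep_mul hh hh' (hψ h hh) (hψ h' hh'))
  · exact H.uniq (hψ _ (Subalgebra.smul_mem _ hh z)) (H.rep_smul z hh (hψ h hh))
  · exact H.uniq (hψ _ (one_mem _)) H.rep_one
  · obtain ⟨h, hh, h1⟩ := H.surj_rep ha
    exact ⟨h, hh, H.uniq h1 (hψ h hh)⟩
  · obtain ⟨a, h1, h2⟩ := H.exists_hom hh hd
    exact ⟨a, h1.1, h2, H.uniq h1 (hψ h hh)⟩
  · have h1 := H.rep_mul (Q.Higgs_inr_mem p) hh (Q.Higgs_flav hθ hu hp)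
      (H.rep_congr ha he (hψ h hh))
    exact ⟨h1.1, H.uniq h1 (hψ _ (mul_mem (Q.Higgs_inr_mem p) hh))⟩

end Pool.Agent.HK
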