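import Pool.Agent.P.MP_1206ce_ag.Top.Alg
import Pool.Agent.P.MP_1206ce_ag.Top.Higgs
import Pool.Agent.P.MP_1206ce_ag.Top.Coul
import Pool.Agent.P.MP_1206ce_ag.BO.Ch

/-! Assembly of the Hikita-Nakajima theorem. -/

noncomputable section

namespace Pool.Agent.HK

section FamLemmas
variable {Y : Type} [TopologicalSpace Y] {A : ℕ → Set Y} {a a' b b' c : Fam Y}

theorem Main_refl (a : Fam Y) : FamEq False A a a := fun n =>
  cohom_false.2 (by rw [sub_self]; exact zero_mem _)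

theorem Main_symm (h : FamEq False A a b) : FamEq False A b a := fun n =>
  cohom_false.2 (by rw [← neg_sub]; exact neg_mem (cohom_false.1 (h n)))

theorem Main_trans (h : FamEq False A a b) (h' : FamEq False A b c) : FamEq False A a c := fun n =>
  cohom_false.2 (by
    rw [← sub_add_sub_cancel (a n) (b n) (c n)]
    exact add_mem (cohom_false.1 (h n)) (cohom_false.1 (h' n)))

theorem Main_add (h : FamEq False A a a') (h' : FamEq False A b b') :
    FamEq False A (a + b) (a' + b') := fun n =>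
  cohom_false.2 (by
    rw [Pi.add_apply, Pi.add_apply, add_sub_add_comm]
    exact add_mem (cohom_false.1 (h n)) (cohom_false.1 (h' n)))

theorem Main_smul (z : ℂ) (h : FamEq False A a a') : FamEq False A (z • a) (z • a') := fun n =>
  cohom_false.2 (by
    rw [Pi.smul_apply, Pi.smul_apply, ← smul_sub]
    exact Submodule.smul_mem _ z (cohom_false.1 (h n)))

theorem Main_cup (ha : IsFam False A a) (ha' : IsFam False A a') (hb : IsFam False A b)
    (hb' : IsFam False A b') (h : FamEq False A a a') (h' : FamEq False A b b') :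
    FamEq False A (cupF a b) (cupF a' b') := fun n =>
  cohom_false.2 (cup_congr (cocycle_false.1 (ha.1 n)) (cocycle_false.1 (ha'.1 n))
    (cocycle_false.1 (hb.1 n)) (cocycle_false.1 (hb'.1 n)) (cohom_false.1 (h n))
    (cohom_false.1 (h' n)))

theorem Main_cancel : FamEq False A (a + b) b ↔ FamEq False A a 0 := by
  refine forall_congr' fun n => ?_
  rw [cohom_false, cohom_false, Pi.add_apply, add_sub_cancel_right, Pi.zero_apply, sub_zero]

theorem Main_fam_add (ha : IsFam False A a) (hb : IsFam False A b) : IsFam False A (a + b) := by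
  obtain ⟨N, hN⟩ := ha.2.2
  obtain ⟨M, hM⟩ := hb.2.2
  refine ⟨fun n => cocycle_false.2 (add_mem (cocycle_false.1 (ha.1 n)) (cocycle_false.1 (hb.1 n))),
    fun n => cohom_false.2 ?_, max N M, fun n l hl => ?_⟩
  · rw [Pi.add_apply, Pi.add_apply, add_sub_add_comm]
    exact add_mem (cohom_false.1 (ha.2.1 n)) (cohom_false.1 (hb.2.1 n))
  · rw [Pi.add_apply, Pi.add_apply, hN n l (by omega), hM n l (by omega), add_zero]

theorem Main_fam_smul (z : ℂ) (ha : IsFam False A a) : IsFam False A (z • a) := by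
  obtain ⟨N, hN⟩ := ha.2.2
  refine ⟨fun n => cocycle_false.2 (Submodule.smul_mem _ z (cocycle_false.1 (ha.1 n))),
    fun n => cohom_false.2 ?_, N, fun n l hl => ?_⟩
  · rw [Pi.smul_apply, Pi.smul_apply, ← smul_sub]
    exact Submodule.smul_mem _ z (cohom_false.1 (ha.2.1 n))
  · rw [Pi.smul_apply, Pi.smul_apply, hN n l hl, smul_zero]

theorem Main_fam_zero : IsFam False A (0 : Fam Y) :=
  ⟨fun _ => cocycle_false.2 (zero_mem _), fun n => Main_refl (A := A) (0 : Fam Y) n, 0,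
    fun _ _ _ => rfl⟩

end FamLemmas

theorem Main_rename_mem (Q : Qv) (p : MvPolynomial (Fin Q.nT) ℂ) :
    (MvPolynomial.rename Sum.inr p : Q.Pol) ∈ Rinv Q.lab := by
  refine rename_mem_Rinv (lab' := id) Sum.inr_injective (fun k l h => ?_) (fun k x h => ?_) ?_
  · simpa [Qv.lab] using h
  · cases x with
    | inl i => simp [Qv.lab] at h
    | inr i => exact ⟨i, rfl⟩
  · refine mem_Rinv.2 fun w hw => ?_
    have h1 : (w : Fin Q.nT → Fin Q.nT) = id := funext fun k => mem_Wl.1 hw k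
    rw [h1, MvPolynomial.rename_id_apply]

theorem Main_finrank (Q : Qv) (j : Option (Fin Q.nI)) :
    Module.finrank ℂ (Q.Vj j) = j.elim 1 Q.dim := by
  have e : Q.Vj j = HD.Vq (Finset.univ.filter fun k => Q.vb k = j) := by
    ext z
    simp [Qv.Vj, HD.Vq, Submodule.mem_pi]
  rw [e, HD.Stab_finrank_Vq]
  cases j with
  | none =>
    have h1 : (Finset.univ.filter fun k => Q.vb k = none) = {none} := by
      ext k
      cases k <;> simp [Qv.vb]
    rw [h1]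
    rfl
  | some i =>
    have h1 : (Finset.univ.filter fun k => Q.vb k = some i) =
        (Finset.univ.filter fun k => Q.vt k = i).map Function.Embedding.some := by
      ext k
      cases k <;> simp [Qv.vb]
    rw [h1, Finset.card_map]
    rfl

theorem Main_chamber (Q : Qv) {θ : Fin Q.nI → ℤ} (hθ : Q.Stable θ) :
    ∃ θ', Q.Generic θ' ∧ Q.Zss θ' = Q.Zss θ := by
  obtain ⟨n, hn⟩ : ∃ n : ℤ, n = ∑ i, (Q.dim i : ℤ) := ⟨_, rfl⟩
  have hn0 : 0 ≤ n := hn ▸ Finset.sum_nonneg fun i _ => Int.natCast_nonneg _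
  have key : ∀ s : Option (Fin Q.nI) → ℤ, ∑ j, Q.thb (fun i => (n + 1) * θ i + 1) j * s j =
      (n + 1) * ∑ j, Q.thb θ j * s j + (∑ i, s (some i) - n * s none) := by
    intro s
    simp only [Fintype.sum_option, Qv.thb, Option.elim, add_mul, one_mul, Finset.sum_add_distrib,
      mul_assoc, ← Finset.mul_sum, ← hn]
    ring
  have bnd : ∀ S : Submodule ℂ (Option (Fin Q.nB) → ℂ),
      -n ≤ ∑ i, (Module.finrank ℂ ↥(S ⊓ Q.Vj (some i)) : ℤ) -
        n * (Module.finrank ℂ ↥(S ⊓ Q.Vj none) : ℤ) ∧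
      ∑ i, (Module.finrank ℂ ↥(S ⊓ Q.Vj (some i)) : ℤ) -
        n * (Module.finrank ℂ ↥(S ⊓ Q.Vj none) : ℤ) ≤ n := by
    intro S
    have h1 : ∀ j, Module.finrank ℂ ↥(S ⊓ Q.Vj j) ≤ j.elim 1 Q.dim := fun j =>
      (Submodule.finrank_mono inf_le_right).trans (Main_finrank Q j).le
    have h2 : ∑ i, (Module.finrank ℂ ↥(S ⊓ Q.Vj (some i)) : ℤ) ≤ n :=
      hn ▸ Finset.sum_le_sum fun i _ => by exact_mod_cast h1 (some i)
    have h3 : (0 : ℤ) ≤ ∑ i, (Module.finrank ℂ ↥(S ⊓ Q.Vj (some i)) : ℤ) :=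
      Finset.sum_nonneg fun i _ => Int.natCast_nonneg _
    have h4 : (Module.finrank ℂ ↥(S ⊓ Q.Vj none) : ℤ) ≤ 1 := by exact_mod_cast h1 none
    have h5 : (0 : ℤ) ≤ (Module.finrank ℂ ↥(S ⊓ Q.Vj none) : ℤ) := Int.natCast_nonneg _
    constructor <;> nlinarith
  refine ⟨fun i => (n + 1) * θ i + 1, fun d hd h0 he => ?_, Set.ext fun p => ?_⟩
  · have h1 : ∑ i, ((n + 1) * θ i + 1) * (d i : ℤ) =
        (n + 1) * ∑ i, θ i * (d i : ℤ) + ∑ i, (d i : ℤ) := by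
      simp only [add_mul _ (1 : ℤ) (d _ : ℤ), one_mul, Finset.sum_add_distrib, mul_assoc,
        ← Finset.mul_sum]
    have h2 : ∑ i, (d i : ℤ) ≤ n := hn ▸ Finset.sum_le_sum fun i _ => by exact_mod_cast hd i
    have h3 : (0 : ℤ) < ∑ i, (d i : ℤ) := by
      obtain ⟨i, hi⟩ := Function.ne_iff.1 h0
      refine Finset.sum_pos' (fun i _ => Int.natCast_nonneg _) ⟨i, Finset.mem_univ _, ?_⟩
      exact_mod_cast Nat.pos_of_ne_zero hi
    rw [h1] at he
    rcases lt_trichotomy (∑ i, θ i * (d i : ℤ)) 0 with h | h | h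
    · nlinarith
    · rw [h] at he
      linarith
    · nlinarith
  · constructor
    · rintro ⟨h1, h2, h3, h4⟩
      refine ⟨h1, h2, h3, fun S hS hi => ?_⟩
      have h5 := h4 S hS hi
      rw [key] at h5
      have h6 := (bnd S).1
      by_contra h7
      rw [not_le] at h7
      nlinarith
    · intro hp
      refine ⟨hp.1, hp.2.1, hp.2.2.1, fun S hS hi => ?_⟩
      by_cases h1 : S = ⊥
      · subst h1
        have h3 : ∀ j, Module.finrank ℂ ↥(⊥ ⊓ Q.Vj j) = 0 := fun j => by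
          rw [bot_inf_eq, finrank_bot]
        simp [h3]
      by_cases h2 : S = ⊤
      · subst h2
        have h3 : ∀ j, Module.finrank ℂ ↥(⊤ ⊓ Q.Vj j) = j.elim 1 Q.dim := fun j => by
          rw [top_inf_eq, Main_finrank]
        simp only [h3, Fintype.sum_option, Qv.thb, Option.elim]
        simp
      have h5 := hθ p hp S hS hi h1 h2
      have h6 := (bnd S).2
      rw [key]
      nlinarith

theorem Main_core (Q : Qv) (θ ν : Fin Q.nI → ℤ) (hθ : Q.Generic θ) (τ : Fam Q.YN) {S : Type}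
    [CommRing S] [Algebra ℂ S] (ab : Q.Fun → S) (I : Ideal S) (ι : Q.Pol → S)
    (hP : Presents (Q.IsBM τ) Q.BMEq (Q.IsConv τ) (Q.IsOne τ) ab)
    (ιadd : ∀ h ∈ Rinv Q.lab, ∀ h' ∈ Rinv Q.lab, ι (h + h') = ι h + ι h')
    (ιmul : ∀ h ∈ Rinv Q.lab, ∀ h' ∈ Rinv Q.lab, ι (h * h') = ι h * ι h')
    (ιsmul : ∀ (z : ℂ), ∀ h ∈ Rinv Q.lab, ι (z • h) = z • ι h) (ιone : ι 1 = 1)
    (hsurj : ∀ z : S, ∃ h ∈ Rinv Q.lab, z - ι h ∈ I)
    (hker : ∀ h ∈ Rinv Q.lab, ι h ∈ I ↔ h ∈ Q.Ipr)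
    (hI : I = Ideal.span {x | ∃ c k, k ≠ 0 ∧ Q.IsBM τ c ∧ Q.HasWt ν k c ∧ ab c = x})
    (hspan : Submodule.span ℂ {x | ∃ c j, Q.IsBM τ c ∧ Q.HasDeg j c ∧ (∀ η, ∃ k, Q.HasWt η k c) ∧
      ab c = x} = ⊤)
    (hwt : ∀ c, Q.IsBM τ c → ∀ η k, k ≠ 0 → Q.HasWt η k c → ab c ∈ I)
    (hdeg : ∀ c, Q.IsBM τ c → ∀ j, Q.HasDeg j c → ∃ h ∈ Rinv Q.lab,
      (h = 0 ∨ ∃ d : ℕ, j = 2 * (d : ℤ) ∧ h.IsHomogeneous d) ∧ ab c - ι h ∈ I)
    (hsm : ∀ c, Q.IsBM τ c → ∀ (u : Fam Q.YF) (p : MvPolynomial (Fin Q.nT) ℂ),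
      IsFam False Q.BF u → FamEq False Q.BF u (chC id p) → Q.IsBM τ (Q.smulA u c) ∧
        ab (Q.smulA u c) = ι (MvPolynomial.rename Sum.inr p) * ab c) : Q.Hikita θ ν τ := by
  classical
  obtain ⟨ψ, hψ, hψ2, hψs, hψ1, hψo, hψ0, hψd, hψu⟩ := Q.higgsMain θ hθ
  set φ : S →ₐ[ℂ] S ⧸ I := Ideal.Quotient.mkₐ ℂ I with hφ
  have φeq : ∀ x y : S, φ x = φ y ↔ x - y ∈ I := fun x y => Ideal.Quotient.eq
  have ιsub : ∀ h ∈ Rinv Q.lab, ∀ h' ∈ Rinv Q.lab, ι (h - h') = ι h - ι h' := fun h hh h' hh' => by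
    have := ιadd _ (sub_mem hh hh') _ hh'
    rw [sub_add_cancel] at this
    rw [this, add_sub_cancel_right]
  have key : ∀ h ∈ Rinv Q.lab, ∀ h' ∈ Rinv Q.lab,
      FamEq False (Q.BM θ) (ψ h) (ψ h') ↔ φ (ι h) = φ (ι h') := by
    intro h hh h' hh'
    have hd := sub_mem hh hh'
    have e1 := (hψ2 _ hd _ hh').1
    rw [sub_add_cancel] at e1
    rw [φeq, ← ιsub h hh h' hh', hker _ hd, ← hψ0 _ hd, ← Main_cancel (b := ψ h')]
    exact ⟨fun e => Main_trans (Main_symm e1) e, fun e => Main_trans e1 e⟩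
  set clH : Fam Q.YM → S ⧸ I := fun a =>
    if H : ∃ h ∈ Rinv Q.lab, FamEq False (Q.BM θ) a (ψ h) then φ (ι H.choose) else 0 with hclH
  have cl1 : ∀ a, ∀ h ∈ Rinv Q.lab, FamEq False (Q.BM θ) a (ψ h) → clH a = φ (ι h) := by
    intro a h hh e
    have H : ∃ h ∈ Rinv Q.lab, FamEq False (Q.BM θ) a (ψ h) := ⟨h, hh, e⟩
    have e2 : clH a = φ (ι H.choose) := dif_pos H
    rw [e2]
    exact (key _ H.choose_spec.1 _ hh).1 (Main_trans (Main_symm H.choose_spec.2) e)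
  have cl2 : ∀ a, IsFam False (Q.BM θ) a → ∀ h ∈ Rinv Q.lab,
      (FamEq False (Q.BM θ) a (ψ h) ↔ clH a = φ (ι h)) := by
    intro a ha h hh
    refine ⟨cl1 a h hh, fun e => ?_⟩
    obtain ⟨h', hh', e'⟩ := hψo a ha
    rw [cl1 a h' hh' e'] at e
    exact Main_trans e' ((key _ hh' _ hh).2 e)
  refine ⟨S, inferInstance, inferInstance, ab, S ⧸ I, inferInstance, inferInstance, clH, φ,
    hP, ⟨fun x => ?_, fun r hr => ?_⟩, hspan, Ideal.Quotient.mkₐ_surjective ℂ _, ?_,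
    fun c hc => ⟨fun j hj => ?_, fun η k hk hw => Ideal.Quotient.eq_zero_iff_mem.2
      (hwt c hc η k hk hw), fun u a hu ha e => ?_⟩⟩
  · obtain ⟨z, rfl⟩ := Ideal.Quotient.mkₐ_surjective ℂ I x
    obtain ⟨h, hh, e⟩ := hsurj z
    exact ⟨ψ h, hψ h hh, (cl1 _ h hh (Main_refl _)).trans ((φeq _ _).2 e).symm⟩
  · obtain ⟨h, hh, e⟩ := hψo r hr
    have er := cl1 r h hh e
    refine ⟨?_, fun z => ⟨Main_fam_smul z hr, ?_⟩, fun r' hr' => ?_⟩
    · have e1 := cl2 r hr 1 (one_mem _)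
      rw [ιone, map_one] at e1
      rw [← e1]
      exact ⟨fun e' => Main_trans e' (Main_symm hψ1), fun e' => Main_trans e' hψ1⟩
    · rw [cl1 _ _ (Subalgebra.smul_mem _ hh z)
        (Main_trans (Main_smul z e) (Main_symm (hψs z h hh))), ιsmul z h hh, map_smul, er]
    · obtain ⟨h', hh', e'⟩ := hψo r' hr'
      have er' := cl1 r' h' hh' e'
      refine ⟨?_, Main_fam_add hr hr', ?_, fun r'' hr'' => ?_⟩
      · rw [er', ← cl2 r hr h' hh']
        exact ⟨fun e1 => Main_trans e1 e', fun e1 => Main_trans e1 (Main_symm e')⟩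
      · rw [cl1 _ _ (add_mem hh hh')
          (Main_trans (Main_add e e') (Main_symm (hψ2 h hh h' hh').1)), ιadd h hh h' hh', map_add,
          er, er']
      · have e3 : FamEq False (Q.BM θ) (cupF r r') (ψ (h * h')) :=
          Main_trans (Main_cup hr (hψ h hh) hr' (hψ h' hh') e e') (Main_symm (hψ2 h hh h' hh').2)
        rw [er, er', ← map_mul, ← ιmul h hh h' hh', ← cl2 r'' hr'' _ (mul_mem hh hh')]
        exact ⟨fun e1 => Main_trans e1 e3, fun e1 => Main_trans e1 (Main_symm e3)⟩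
  · have e1 : RingHom.ker φ = I := by
      ext x
      rw [RingHom.mem_ker]
      exact Ideal.Quotient.eq_zero_iff_mem
    rw [e1, hI]
  · obtain ⟨h, hh, hd, e⟩ := hdeg c hc j hj
    have e1 := (φeq _ _).2 e
    rcases hd with rfl | ⟨d, rfl, hd⟩
    · refine ⟨0, Main_fam_zero, fun _ _ _ => rfl, e1.trans (cl1 _ _ hh ?_).symm⟩
      have e2 := hψs 0 0 hh
      rw [zero_smul, zero_smul] at e2
      exact Main_symm e2
    · obtain ⟨a, ha, ha', e2⟩ := hψd h hh d hd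
      exact ⟨a, ha, ha', e1.trans (cl1 _ _ hh e2).symm⟩
  · obtain ⟨p, _, hp, _⟩ := fam_ch_surj (lab := (id : Fin Q.nT → Fin Q.nT)) (lab₀ := id)
      (fun _ _ h => h) (a := u) hu
    obtain ⟨h, hh, e1⟩ := hψo a ha
    obtain ⟨b1, e2⟩ := hsm c hc u p hu hp
    obtain ⟨c1, c2⟩ := hψu u p hu hp a h hh ha e1
    have hr := Main_rename_mem Q p
    refine ⟨b1, c1, ?_⟩
    rw [cl1 _ _ (mul_mem hr hh) c2, ιmul _ hr h hh, e2, map_mul, map_mul, e, cl1 a h hh e1]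

theorem Main_generic (Q : Qv) (θ ν : Fin Q.nI → ℤ) (hθ : Q.Generic θ) (hν : Q.Generic ν)
    (τ : Fam Q.YN) (hτ : Q.IsThom τ) : Q.Hikita θ ν τ := by
  obtain ⟨S, ab, hS, hP, hab⟩ := Q.coulMain τ hτ
  obtain ⟨τb, hτb⟩ := Q.bdef.exists_thom
  obtain ⟨Sb, _, hSb, _, _⟩ := Q.bdef.coulMain τb hτb
  obtain ⟨ι, hι, hsurj, hker, hdeg⟩ := Q.algMain ν hν S hS Sb hSb
  refine Main_core Q θ ν hθ τ ab (Q.IA ν S) ι hP (fun h hh h' hh' => Subtype.ext ?_)
    (fun h hh h' hh' => Subtype.ext ?_) (fun z h hh => Subtype.ext ?_) (Subtype.ext ?_) hsurj hker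
    ?_ ?_ (fun c hc η k hk hw => Q.algWt ν hν S hS η k hk _ (((hab c hc).1 η k).1 hw))
    (fun c hc j hj => hdeg (ab c) j (((hab c hc).2.1 j).1 hj)) fun c hc u p hu hp => ?_
  · show (ι (h + h')).1 = (ι h).1 + (ι h').1
    rw [hι _ (add_mem hh hh'), hι _ hh, hι _ hh', map_add]
  · show (ι (h * h')).1 = (ι h).1 * (ι h').1
    rw [hι _ (mul_mem hh hh'), hι _ hh, hι _ hh', map_mul]
  · show (ι (z • h)).1 = z • (ι h).1
    rw [hι _ (Subalgebra.smul_mem _ hh z), hι _ hh, map_smul]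
  · show (ι 1).1 = 1
    rw [hι _ (one_mem _), map_one]
  · refine congrArg Ideal.span (Set.ext fun z => ⟨?_, ?_⟩)
    · rintro ⟨k, hk, hz⟩
      obtain ⟨c, hc, rfl⟩ := hP.1 z
      exact ⟨c, k, hk, hc, ((hab c hc).1 ν k).2 hz, rfl⟩
    · rintro ⟨c, k, hk, hc, hw, rfl⟩
      exact ⟨k, hk, ((hab c hc).1 ν k).1 hw⟩
  · refine top_le_iff.1 ((Qv.span_hom hS).symm.le.trans (Submodule.span_mono ?_))
    rintro z ⟨⟨j, hj⟩, hw⟩
    obtain ⟨c, hc, rfl⟩ := hP.1 z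
    exact ⟨c, j, hc, ((hab c hc).2.1 j).2 hj, fun η =>
      (hw η).imp fun k hk => ((hab c hc).1 η k).2 hk, rfl⟩
  · obtain ⟨b1, b2⟩ := (hab c hc).2.2 u p hu hp
    refine ⟨b1, Subtype.ext ?_⟩
    show (ab (Q.smulA u c)).1 = (ι (MvPolynomial.rename Sum.inr p)).1 * (ab c).1
    rw [b2, hι _ (Main_rename_mem Q p)]

theorem Qv.hikita (Q : Qv) (θ ν : Fin Q.nI → ℤ) (hθ : Q.Stable θ) (hν : Q.Generic ν) :
    (∃ τ, Q.IsThom τ) ∧ ∀ τ, Q.IsThom τ → Q.Hikita θ ν τ := by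
  refine ⟨Q.exists_thom, fun τ hτ => ?_⟩
  obtain ⟨θ', h1, h2⟩ := Main_chamber Q hθ
  have h3 : Q.BM θ' = Q.BM θ := by
    funext n
    rw [Qv.BM, Qv.BM, Qv.MM, Qv.MM, h2]
  have h4 := Main_generic Q θ' ν h1 hν τ hτ
  rw [Qv.Hikita, h3] at h4
  exact h4

end Pool.Agent.HK
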